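import Mathlib

set_option autoImplicit false

namespace Pool.Agent.H.MP_d1b776_ag

open Finset

/-- the bases of the Vamos matroid -/
def bases : Finset (Finset (Fin 8)) :=
  powersetCard 4 univ \ {{0, 1, 2, 3}, {0, 1, 4, 5}, {0, 1, 6, 7}, {2, 3, 4, 5}, {2, 3, 6, 7}}

/-- the Vamos polynomial -/
noncomputable def vamos : MvPolynomial (Fin 8) ℂ := ∑ B ∈ bases, ∏ i ∈ B, MvPolynomial.X i

section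

variable {R : Type} [CommRing R] (a : Fin 8 → R)

def c3 : R :=
  32 * a 0 + 32 * a 1 + 32 * a 2 + 32 * a 3 + 33 * a 4 + 33 * a 5 + 33 * a 6 + 33 * a 7

def c2 : R :=
  12 * a 0 * a 1 + 14 * a 0 * a 2 + 14 * a 0 * a 3 + 14 * a 0 * a 4 + 14 * a 0 * a 5 +
    14 * a 0 * a 6 + 14 * a 0 * a 7 + 14 * a 1 * a 2 + 14 * a 1 * a 3 + 14 * a 1 * a 4 +
    14 * a 1 * a 5 + 14 * a 1 * a 6 + 14 * a 1 * a 7 + 12 * a 2 * a 3 + 14 * a 2 * a 4 +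
    14 * a 2 * a 5 + 14 * a 2 * a 6 + 14 * a 2 * a 7 + 14 * a 3 * a 4 + 14 * a 3 * a 5 +
    14 * a 3 * a 6 + 14 * a 3 * a 7 + 13 * a 4 * a 5 + 15 * a 4 * a 6 + 15 * a 4 * a 7 +
    15 * a 5 * a 6 + 15 * a 5 * a 7 + 13 * a 6 * a 7

def c1 : R :=
  4 * a 0 * a 1 * a 2 + 4 * a 0 * a 1 * a 3 + 4 * a 0 * a 1 * a 4 + 4 * a 0 * a 1 * a 5 +
    4 * a 0 * a 1 * a 6 + 4 * a 0 * a 1 * a 7 + 4 * a 0 * a 2 * a 3 + 5 * a 0 * a 2 * a 4 +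
    5 * a 0 * a 2 * a 5 + 5 * a 0 * a 2 * a 6 + 5 * a 0 * a 2 * a 7 + 5 * a 0 * a 3 * a 4 +
    5 * a 0 * a 3 * a 5 + 5 * a 0 * a 3 * a 6 + 5 * a 0 * a 3 * a 7 + 4 * a 0 * a 4 * a 5 +
    5 * a 0 * a 4 * a 6 + 5 * a 0 * a 4 * a 7 + 5 * a 0 * a 5 * a 6 + 5 * a 0 * a 5 * a 7 +
    4 * a 0 * a 6 * a 7 + 4 * a 1 * a 2 * a 3 + 5 * a 1 * a 2 * a 4 + 5 * a 1 * a 2 * a 5 +
    5 * a 1 * a 2 * a 6 + 5 * a 1 * a 2 * a 7 + 5 * a 1 * a 3 * a 4 + 5 * a 1 * a 3 * a 5 +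
    5 * a 1 * a 3 * a 6 + 5 * a 1 * a 3 * a 7 + 4 * a 1 * a 4 * a 5 + 5 * a 1 * a 4 * a 6 +
    5 * a 1 * a 4 * a 7 + 5 * a 1 * a 5 * a 6 + 5 * a 1 * a 5 * a 7 + 4 * a 1 * a 6 * a 7 +
    4 * a 2 * a 3 * a 4 + 4 * a 2 * a 3 * a 5 + 4 * a 2 * a 3 * a 6 + 4 * a 2 * a 3 * a 7 +
    4 * a 2 * a 4 * a 5 + 5 * a 2 * a 4 * a 6 + 5 * a 2 * a 4 * a 7 + 5 * a 2 * a 5 * a 6 +
    5 * a 2 * a 5 * a 7 + 4 * a 2 * a 6 * a 7 + 4 * a 3 * a 4 * a 5 + 5 * a 3 * a 4 * a 6 +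
    5 * a 3 * a 4 * a 7 + 5 * a 3 * a 5 * a 6 + 5 * a 3 * a 5 * a 7 + 4 * a 3 * a 6 * a 7 +
    5 * a 4 * a 5 * a 6 + 5 * a 4 * a 5 * a 7 + 5 * a 4 * a 6 * a 7 + 5 * a 5 * a 6 * a 7

def c0 : R :=
  a 0 * a 1 * a 2 * a 4 + a 0 * a 1 * a 2 * a 5 + a 0 * a 1 * a 2 * a 6 + a 0 * a 1 * a 2 * a 7 +
    a 0 * a 1 * a 3 * a 4 + a 0 * a 1 * a 3 * a 5 + a 0 * a 1 * a 3 * a 6 +
    a 0 * a 1 * a 3 * a 7 + a 0 * a 1 * a 4 * a 6 + a 0 * a 1 * a 4 * a 7 +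
    a 0 * a 1 * a 5 * a 6 + a 0 * a 1 * a 5 * a 7 + a 0 * a 2 * a 3 * a 4 +
    a 0 * a 2 * a 3 * a 5 + a 0 * a 2 * a 3 * a 6 + a 0 * a 2 * a 3 * a 7 +
    a 0 * a 2 * a 4 * a 5 + a 0 * a 2 * a 4 * a 6 + a 0 * a 2 * a 4 * a 7 +
    a 0 * a 2 * a 5 * a 6 + a 0 * a 2 * a 5 * a 7 + a 0 * a 2 * a 6 * a 7 +
    a 0 * a 3 * a 4 * a 5 + a 0 * a 3 * a 4 * a 6 + a 0 * a 3 * a 4 * a 7 +
    a 0 * a 3 * a 5 * a 6 + a 0 * a 3 * a 5 * a 7 + a 0 * a 3 * a 6 * a 7 +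
    a 0 * a 4 * a 5 * a 6 + a 0 * a 4 * a 5 * a 7 + a 0 * a 4 * a 6 * a 7 +
    a 0 * a 5 * a 6 * a 7 + a 1 * a 2 * a 3 * a 4 + a 1 * a 2 * a 3 * a 5 +
    a 1 * a 2 * a 3 * a 6 + a 1 * a 2 * a 3 * a 7 + a 1 * a 2 * a 4 * a 5 +
    a 1 * a 2 * a 4 * a 6 + a 1 * a 2 * a 4 * a 7 + a 1 * a 2 * a 5 * a 6 +
    a 1 * a 2 * a 5 * a 7 + a 1 * a 2 * a 6 * a 7 + a 1 * a 3 * a 4 * a 5 +
    a 1 * a 3 * a 4 * a 6 + a 1 * a 3 * a 4 * a 7 + a 1 * a 3 * a 5 * a 6 +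
    a 1 * a 3 * a 5 * a 7 + a 1 * a 3 * a 6 * a 7 + a 1 * a 4 * a 5 * a 6 +
    a 1 * a 4 * a 5 * a 7 + a 1 * a 4 * a 6 * a 7 + a 1 * a 5 * a 6 * a 7 +
    a 2 * a 3 * a 4 * a 6 + a 2 * a 3 * a 4 * a 7 + a 2 * a 3 * a 5 * a 6 +
    a 2 * a 3 * a 5 * a 7 + a 2 * a 4 * a 5 * a 6 + a 2 * a 4 * a 5 * a 7 +
    a 2 * a 4 * a 6 * a 7 + a 2 * a 5 * a 6 * a 7 + a 3 * a 4 * a 5 * a 6 +
    a 3 * a 4 * a 5 * a 7 + a 3 * a 4 * a 6 * a 7 + a 3 * a 5 * a 6 * a 7 +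
    a 4 * a 5 * a 6 * a 7

theorem esymm_cons (x : R) (s : Multiset R) (n : ℕ) :
    (x ::ₘ s).esymm (n + 1) = x * s.esymm n + s.esymm (n + 1) := by
  simp [Multiset.esymm, Multiset.powersetCard_cons, Multiset.sum_map_mul_left, add_comm]

theorem expand (t : R) : ∑ B ∈ bases, ∏ i ∈ B, (a i - t) =
    65 * t ^ 4 - c3 a * t ^ 3 + c2 a * t ^ 2 - c1 a * t + c0 a := by
  rw [bases, sum_sdiff_eq_sub (by decide), ← esymm_map_val, sum_insert (by decide),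
    sum_insert (by decide), sum_insert (by decide), sum_insert (by decide), sum_singleton]
  have : (univ : Finset (Fin 8)).val = 0 ::ₘ 1 ::ₘ 2 ::ₘ 3 ::ₘ 4 ::ₘ 5 ::ₘ 6 ::ₘ 7 ::ₘ 0 := by
    decide
  have z (n : ℕ) : (0 : Multiset R).esymm (n + 1) = 0 := by simp [Multiset.esymm]
  have y (s : Multiset R) : s.esymm 0 = 1 := by simp [Multiset.esymm]
  simp only [this, Multiset.map_cons, Multiset.map_zero, esymm_cons, z, y]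
  simp only [c0, c1, c2, c3]
  repeat rw [prod_insert (by decide)]
  simp only [prod_singleton]
  ring

end

end Pool.Agent.H.MP_d1b776_ag
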