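import Pool.Agent.H.MP_d1b776_ag.A

set_option autoImplicit false

namespace Pool.Agent.H.MP_d1b776_ag

open Finset

variable {Q : Type} [Ring Q] [Algebra ℝ Q]

theorem sand0 (T P : Q) (a3 a2 a1 b2 b1 b0 : ℝ) (hP : P * P = P)
    (h : ∀ s : ℝ, (T + s • P) ^ 4 + (a3 - s) • (T + s • P) ^ 3 + (a2 + s * b2) • (T + s • P) ^ 2 +
      (a1 + s * b1) • (T + s • P) + (s * b0) • (1 : Q) = 0) :
    P * (T * P) = -(a3 + b2) • P ∧
      P * ((T ^ 3 + a3 • T ^ 2 + a2 • T + a1 • (1 : Q)) * P) = -b0 • P := by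
  have r0 : ∀ x, P * (P * x) = P * x := fun x => by rw [← mul_assoc, hP]
  have h0 := congrArg (fun x => P * x * P) (h 0)
  have h1 := congrArg (fun x => P * x * P) (h 1)
  have h2 := congrArg (fun x => P * x * P) (h (-1))
  have h3 := congrArg (fun x => P * x * P) (h 2)
  have h4 := congrArg (fun x => P * x * P) (h (-2))
  simp only [pow_succ, pow_zero, one_mul, mul_one, mul_add, add_mul, smul_mul_assoc,
    mul_smul_comm, mul_assoc, r0, hP, mul_zero, zero_mul] at h0 h1 h2 h3 h4 ⊢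
  have e1 : P * (T * P) = -(a3 + b2) • P := by
    linear_combination (norm := module) (1 / 12 : ℝ) • h3 - (1 / 6 : ℝ) • h1 +
      (1 / 6 : ℝ) • h2 - (1 / 12 : ℝ) • h4
  have r1 : ∀ x, P * (T * (P * x)) = -(a3 + b2) • (P * x) := fun x => by
    rw [← smul_mul_assoc, ← e1, mul_assoc, mul_assoc]
  simp only [r1, e1, mul_smul_comm] at h0 h1 h2 h3 h4 ⊢
  have e2 : P * (T * (T * P)) = -(a2 + b1 - a3 * (a3 + b2)) • P := by
    linear_combination (norm := module) (2 / 3 : ℝ) • h1 + (2 / 3 : ℝ) • h2 -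
      (1 / 24 : ℝ) • h3 - (1 / 24 : ℝ) • h4 - (5 / 4 : ℝ) • h0
  have r2 : ∀ x, P * (T * (T * (P * x))) = -(a2 + b1 - a3 * (a3 + b2)) • (P * x) := fun x => by
    rw [← smul_mul_assoc, ← e2, mul_assoc, mul_assoc, mul_assoc]
  simp only [r2, e2, e1, mul_smul_comm] at h0 h1 h2 h3 h4 ⊢
  refine ⟨trivial, ?_⟩
  linear_combination (norm := module) (2 / 3 : ℝ) • h1 - (2 / 3 : ℝ) • h2 -
      (1 / 12 : ℝ) • h3 + (1 / 12 : ℝ) • h4

theorem sand (T Z : Q) (N l a3 a2 a1 b2 b1 b0 : ℝ) (hN : N ≠ 0) (hl : l ≠ 0) (hZ : Z * Z = l • Z)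
    (h : ∀ s : ℝ, N • (T + s • Z) ^ 4 + (a3 - s * (N * l)) • (T + s • Z) ^ 3 +
      (a2 + s * b2) • (T + s • Z) ^ 2 + (a1 + s * b1) • (T + s • Z) + (s * b0) • (1 : Q) = 0) :
    Z * (T * Z) = -((a3 * l + b2) / N) • Z ∧
      Z * ((N • T ^ 3 + a3 • T ^ 2 + a2 • T + a1 • (1 : Q)) * Z) = -b0 • Z := by
  obtain ⟨P, rfl⟩ : ∃ P, Z = l • P := ⟨l⁻¹ • Z, (smul_inv_smul₀ hl Z).symm⟩
  have hP : P * P = P := by
    rw [smul_mul_smul_comm, mul_smul] at hZ
    exact smul_right_injective _ hl (smul_right_injective _ hl hZ)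
  obtain ⟨e1, e2⟩ := sand0 T P (a3 / N) (a2 / N) (a1 / N) (b2 / (N * l)) (b1 / (N * l))
    (b0 / (N * l)) hP fun s => by
      have := h (s / l)
      rw [smul_smul, div_mul_cancel₀ _ hl] at this
      linear_combination (norm := (match_scalars <;> field_simp <;> ring)) N⁻¹ • this
  simp only [smul_mul_assoc, mul_smul_comm, add_mul, mul_add] at e1 e2 ⊢
  constructor
  · linear_combination (norm := (match_scalars <;> field_simp <;> ring)) (l * l) • e1
  · linear_combination (norm := (match_scalars <;> field_simp <;> ring)) (N * l * l) • e2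

variable [StarRing Q] [StarModule ℝ Q]
  (hP : ∀ x y w : Q, star x * x + star y * y + star w * w = 0 → x = 0)
  (z : Fin 8 → Q) (hz : ∀ i, star (z i) = z i)
  (h : ∀ (a : Fin 8 → ℝ) (T : Q), T = ∑ i, a i • z i → (65 : ℝ) • T ^ 4 - c3 a • T ^ 3 +
    c2 a • T ^ 2 - c1 a • T + c0 a • (1 : Q) = 0)
include hP hz h

noncomputable def lam (i : Fin 8) : ℝ := c3 (Pi.single i 1) / 65

omit hP hz h in
theorem lam_pos (i : Fin 8) : 0 < lam i := by
  fin_cases i <;> simp [lam, c3]

theorem zsq (i : Fin 8) : z i * z i = lam i • z i := by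
  have a := h (Pi.single i 1) (z i) (by simp [Pi.single_apply])
  have b : c2 (Pi.single i (1 : ℝ)) = 0 ∧ c1 (Pi.single i (1 : ℝ)) = 0 ∧
      c0 (Pi.single i (1 : ℝ)) = 0 := by
    fin_cases i <;> simp [c2, c1, c0]
  rw [b.1, b.2.1, b.2.2] at a
  have p : ∀ x : Q, star x * x = 0 → x = 0 := fun x e => hP x 0 0 (by simpa using e)
  have a2 : z i * (z i * (z i * z i)) = lam i • (z i * (z i * z i)) := by
    simp only [pow_succ, pow_zero, one_mul, mul_assoc] at a
    linear_combination (norm := (simp only [lam]; module)) (1 / 65 : ℝ) • a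
  have c : z i * (z i * z i) = lam i • (z i * z i) := by
    rw [← sub_eq_zero]
    apply p
    simp only [star_sub, star_mul, star_smul, hz, star_trivial, sub_mul, mul_sub, smul_mul_assoc,
      mul_smul_comm, mul_assoc, a2]
    module
  rw [← sub_eq_zero]
  apply p
  simp only [star_sub, star_mul, star_smul, hz, star_trivial, sub_mul, mul_sub, smul_mul_assoc,
    mul_smul_comm, mul_assoc, c]
  module

theorem pair (i : Fin 8) (b : Fin 8 → ℝ) (h0 : c0 b = 0) (T : Q)
    (hT : T = ∑ j, b j • z j) :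
    z i * (T * z i) = ((c3 b * lam i - (c2 (b + Pi.single i 1) - c2 b)) / 65) • z i ∧
      z i * (((65 : ℝ) • T ^ 3 + -c3 b • T ^ 2 + c2 b • T + -c1 b • (1 : Q)) * z i) =
        -c0 (b + Pi.single i 1) • z i := by
  have := sand T (z i) 65 (lam i) (-c3 b) (c2 b) (-c1 b) (c2 (b + Pi.single i 1) - c2 b)
    (-(c1 (b + Pi.single i 1) - c1 b)) (c0 (b + Pi.single i 1)) (by norm_num) (lam_pos i).ne'
    (zsq hP z hz h i) fun s => by
      have e := h (b + Pi.single i s) (T + s • z i) (by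
        simp [hT, add_smul, sum_add_distrib, Pi.single_apply])
      have q : c3 (b + Pi.single i s) = c3 b + s * (65 * lam i) ∧
          c2 (b + Pi.single i s) = c2 b + s * (c2 (b + Pi.single i 1) - c2 b) ∧
          c1 (b + Pi.single i s) = c1 b + s * (c1 (b + Pi.single i 1) - c1 b) ∧
          c0 (b + Pi.single i s) = c0 b + s * (c0 (b + Pi.single i 1) - c0 b) := by
        refine ⟨?_, ?_, ?_, ?_⟩ <;> fin_cases i <;> simp [lam, c3, c2, c1, c0] <;> ring
      rw [q.1, q.2.1, q.2.2.1, q.2.2.2, h0] at e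
      linear_combination (norm := module) e
  refine ⟨?_, this.2⟩
  rw [this.1]
  congr 1
  ring

omit h in
theorem kill (G : Q) (hG : star G = G) (j k l : Fin 8) (hs : ∀ i, z i * z i = lam i • z i)
    (e : (z j + z k + z l) * G = 0) : G * z j = 0 := by
  have q : ∀ i, star ((√(lam i))⁻¹ • (z i * G)) * ((√(lam i))⁻¹ • (z i * G)) = G * (z i * G) := by
    intro i
    have := (lam_pos i).ne'
    rw [star_smul, star_trivial, smul_mul_smul_comm, ← mul_inv, Real.mul_self_sqrt (lam_pos i).le,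
      star_mul, hG, hz, mul_assoc, ← mul_assoc (z i), hs, smul_mul_assoc, mul_smul_comm,
      inv_smul_smul₀ this]
  have a := hP ((√(lam j))⁻¹ • (z j * G)) ((√(lam k))⁻¹ • (z k * G)) ((√(lam l))⁻¹ • (z l * G))
    (by rw [q j, q k, q l, ← mul_add, ← mul_add, ← add_mul, ← add_mul, e, mul_zero])
  rw [smul_eq_zero_iff_right (inv_ne_zero (Real.sqrt_pos.2 (lam_pos j)).ne')] at a
  simpa [hG, hz] using congrArg star a

theorem tri (i j k l : Fin 8) (b : Fin 8 → ℝ)
    (hb : b = Pi.single j 1 + Pi.single k 1 + Pi.single l 1) (h0 : c0 b = 0) :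
    (c0 (b + Pi.single i 1) ≠ 0 → ∀ x u v w, z i * x = z j * u + z k * v + z l * w → z i * x = 0) ∧
    (c0 (b + Pi.single i 1) = 0 → c1 b ≠ 0 →
      ∀ x, ∃ u v w, z i * x = z j * u + z k * v + z l * w) := by
  have hT : z j + z k + z l = ∑ m, b m • z m := by
    simp [hb, add_smul, sum_add_distrib, Pi.single_apply]
  have e := (pair hP z hz h i b h0 _ hT).2
  have r := h b _ hT
  set T := z j + z k + z l with hT'
  set G := (65 : ℝ) • T ^ 3 + -c3 b • T ^ 2 + c2 b • T + -c1 b • (1 : Q) with hG'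
  have sT : star T = T := by simp [hT', hz]
  have sG : star G = G := by simp [hG', sT]
  have tG : T * G = 0 := by
    rw [← r, hG', h0]
    simp only [mul_add, mul_smul_comm, ← pow_succ', mul_one, ← sq]
    module
  have hs := zsq hP z hz h
  constructor
  · intro c x u v w hx
    have k1 := kill hP z hz G sG j k l hs tG
    have k2 := kill hP z hz G sG k j l hs (by rw [add_comm (z k)]; exact tG)
    have k3 := kill hP z hz G sG l j k hs (by rw [add_rotate]; exact tG)
    have : G * (z i * x) = 0 := by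
      rw [hx]
      simp only [mul_add, ← mul_assoc, k1, k2, k3, zero_mul, add_zero]
    have b2 := congrArg (· * x) e
    simp only [mul_assoc, this, mul_zero, smul_mul_assoc] at b2
    exact (smul_eq_zero_iff_right (neg_ne_zero.2 c)).1 b2.symm
  · intro c c' x
    obtain ⟨H, hH⟩ : ∃ H, G = T * H - c1 b • 1 :=
      ⟨(65 : ℝ) • T ^ 2 + -c3 b • T + c2 b • 1, by
        simp only [hG', mul_add, mul_smul_comm, ← pow_succ', mul_one, ← sq]
        module⟩
    have gT : G * T = 0 := by simpa [sG, sT] using congrArg star tG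
    have g2 : G * z i = 0 := hP _ 0 0 (by
      rw [c, neg_zero, zero_smul] at e
      have : G * G = -c1 b • G := by
        nth_rewrite 2 [hH]
        rw [mul_sub, ← mul_assoc, gT]
        simp
      rw [star_mul, sG, hz, mul_assoc, ← mul_assoc G, this]
      simp [e])
    have g3 : z i = T * ((c1 b)⁻¹ • (H * z i)) := by
      rw [hH, sub_mul, sub_eq_zero, smul_mul_assoc, one_mul, mul_assoc] at g2
      rw [mul_smul_comm, g2, inv_smul_smul₀ c']
    exact ⟨_, _, _, by rw [← add_mul, ← add_mul, ← hT', ← mul_assoc, ← g3]⟩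

theorem one_eq_zero (h1 : ∑ i, z i = 1) : (1 : Q) = 0 := by
  have t := fun i j k l => tri hP z hz h i j k l _ rfl
  have d3 := (t 3 0 1 2 (by simp [c0])).2 (by simp [c0]) (by simp [c1])
  have step : ∀ a b : Fin 8, (∀ x, ∃ u v w, z 1 * x = z 0 * u + z a * v + z b * w) →
      (∀ x, ∃ u v w, z b * x = z 2 * u + z 3 * v + z a * w) →
      (∀ x u v w, z a * x = z 0 * u + z 1 * v + z 2 * w → z a * x = 0) →
      ∃ u v w p q, z 1 - z 0 * u = z a * v + z b * w ∧ z 1 - z 0 * u = z 2 * p + z 3 * q := by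
    intro a b e1 e2 e3
    obtain ⟨u, v, w, h1⟩ := e1 1
    obtain ⟨p, q, r, h2⟩ := e2 w
    obtain ⟨p', q', r', h3⟩ := d3 q
    have := e3 (v + r) (-u - p') (1 - q') (-p - r') (by
      linear_combination (norm := noncomm_ring) -h1 - h2 - h3)
    exact ⟨u, v, w, p, q, by linear_combination (norm := noncomm_ring) h1,
      by linear_combination (norm := noncomm_ring) h1 + h2 + this⟩
  obtain ⟨u, v, w, p, q, a1, a2⟩ := step 4 5
    ((t 1 0 4 5 (by simp [c0])).2 (by simp [c0]) (by simp [c1]))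
    ((t 5 2 3 4 (by simp [c0])).2 (by simp [c0]) (by simp [c1]))
    ((t 4 0 1 2 (by simp [c0])).1 (by simp [c0]))
  obtain ⟨u', v', w', p', q', b1, b2⟩ := step 6 7
    ((t 1 0 6 7 (by simp [c0])).2 (by simp [c0]) (by simp [c1]))
    ((t 7 2 3 6 (by simp [c0])).2 (by simp [c0]) (by simp [c1]))
    ((t 6 0 1 2 (by simp [c0])).1 (by simp [c0]))
  have c := (t 0 2 3 4 (by simp [c0])).1 (by simp [c0]) (u' - u) (p - p') (q - q') 0 (by
    linear_combination (norm := noncomm_ring) a2 - b2)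
  have d := (t 4 5 6 7 (by simp [c0])).1 (by simp [c0]) v (-w) v' w' (by
    linear_combination (norm := noncomm_ring) b1 - a1 + c)
  have e := (t 5 4 6 7 (by simp [c0])).1 (by simp [c0]) w (-v) v' w' (by
    linear_combination (norm := noncomm_ring) b1 - a1 + c)
  have f := (t 1 0 2 4 (by simp [c0])).1 (by simp [c0]) 1 u 0 0 (by
    linear_combination (norm := noncomm_ring) a1 + d + e)
  rw [mul_one] at f
  rw [← h1]
  refine sum_eq_zero fun i _ => ?_
  have g := (pair hP z hz h i (Pi.single 1 1) (by simp [c0]) (z 1) (by simp [Pi.single_apply])).1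
  rw [f, zero_mul, mul_zero, eq_comm, smul_eq_zero_iff_right] at g
  · exact g
  · fin_cases i <;> simp [lam, c3, c2] <;> norm_num

end Pool.Agent.H.MP_d1b776_ag
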