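import Pool.Agent.H.MP_d1b776_ag.B

set_option autoImplicit false

namespace Pool.Agent.H.MP_d1b776_ag

open Finset

variable {A : Type} [Ring A] [Algebra ℝ A] [StarRing A] [StarModule ℝ A]

def SS (A : Type) [Ring A] [StarRing A] : AddSubmonoid A :=
  AddSubmonoid.closure (Set.range fun b : A => star b * b)

omit [Algebra ℝ A] [StarModule ℝ A] in
theorem sq_mem (b : A) : star b * b ∈ SS A := AddSubmonoid.subset_closure ⟨b, rfl⟩

omit [Algebra ℝ A] [StarModule ℝ A] in
theorem conj_mem {x : A} (h : x ∈ SS A) (c : A) : star c * x * c ∈ SS A := by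
  induction h using AddSubmonoid.closure_induction with
  | mem x hx =>
    obtain ⟨b, rfl⟩ := hx
    simpa [mul_assoc] using sq_mem (b * c)
  | zero => simp
  | add x y _ _ a b => simpa [mul_add, add_mul] using add_mem a b

theorem smul_mem {x : A} (h : x ∈ SS A) {r : ℝ} (hr : 0 ≤ r) : r • x ∈ SS A := by
  simpa [star_smul, smul_smul, Real.mul_self_sqrt hr] using conj_mem h (√r • (1 : A))

def Le (x : A) (c : ℝ) : Prop := c • (1 : A) - star x * x ∈ SS A

theorem Le.add {x y : A} {c d : ℝ} (h : Le x c) (g : Le y d) : Le (x + y) (2 * c + 2 * d) := by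
  have := add_mem (add_mem (smul_mem h zero_le_two) (smul_mem g zero_le_two)) (sq_mem (x - y))
  unfold Le
  convert this using 1
  simp only [star_add, star_sub, mul_add, add_mul, mul_sub, sub_mul]
  module

theorem Le.mul {x y : A} {c d : ℝ} (h : Le x c) (g : Le y d) (hc : 0 ≤ c) : Le (x * y) (c * d) := by
  have := add_mem (conj_mem h y) (smul_mem g hc)
  unfold Le
  convert this using 1
  simp only [star_mul, mul_sub, sub_mul, mul_assoc, smul_mul_assoc, mul_smul_comm, one_mul]
  module

theorem Le.mono {x : A} {c d : ℝ} (h : Le x c) (l : c ≤ d) : Le x d := by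
  have := add_mem h (smul_mem (sq_mem (1 : A)) (sub_nonneg.2 l))
  unfold Le
  convert this using 1
  rw [star_one, mul_one]
  module

theorem Le.of_alg (x : A) (hx : star x = x) (l : ℝ) (h : x ^ 4 = l • x ^ 3) : ∃ c, Le x c := by
  obtain ⟨g, hg⟩ : ∃ g : ℝ, 2 * g = 2 + l ^ 2 / 4 := ⟨1 + l ^ 2 / 8, by ring⟩
  refine ⟨g ^ 2 + (l * g / 2) ^ 2, ?_⟩
  have := add_mem (sq_mem (x * x - (l / 2) • x - g • 1)) (sq_mem (x - (l * g / 2) • 1))
  unfold Le
  convert this using 1
  simp only [star_sub, star_mul, star_smul, star_trivial, star_one, hx, mul_sub, sub_mul,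
    mul_assoc, smul_mul_assoc, mul_smul_comm, one_mul, mul_one, pow_succ, pow_zero] at h ⊢
  linear_combination (norm := module) -h + hg • (x * x)

theorem main (hb : ∀ x : A, ∃ c, Le x c) (z : Fin 8 → A) (hz : ∀ i, star (z i) = z i)
    (h : ∀ (a : Fin 8 → ℝ) (T : A), T = ∑ i, a i • z i → (65 : ℝ) • T ^ 4 - c3 a • T ^ 3 +
      c2 a • T ^ 2 - c1 a • T + c0 a • (1 : A) = 0) (h1 : ∑ i, z i = 1) : (-1 : A) ∈ SS A := by
  have hb' : ∀ x : A, ∃ c, 0 < c ∧ Le x c := fun x =>
    (hb x).elim fun c hc => ⟨max c 1, by positivity, hc.mono (le_max_left _ _)⟩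
  let I : Ideal A :=
    { carrier := {x | ∀ e, 0 < e → Le x e}
      zero_mem' := fun e he => by simpa [Le] using smul_mem (sq_mem (1 : A)) he.le
      add_mem' := fun {x y} a b e he => by
        convert (a (e / 4) (by positivity)).add (b (e / 4) (by positivity)) using 1
        ring
      smul_mem' := fun x y a e he => by
        obtain ⟨c, c0, hc⟩ := hb' x
        have := hc.mul (a (e / c) (by positivity)) c0.le
        rwa [mul_div_cancel₀ _ c0.ne'] at this }
  haveI : I.IsTwoSided := ⟨fun {x} y a e he => by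
    obtain ⟨c, c0, hc⟩ := hb' y
    convert (a (e / c) (by positivity)).mul hc (by positivity) using 1
    field_simp⟩
  have key : ∀ x s : A, s ∈ SS A → star s = s → star x * x + s ∈ I → x ∈ I := by
    intro x s hs ss hw e he
    have sw : star (star x * x + s) = star x * x + s := by simp [ss]
    have := add_mem (smul_mem (add_mem (hw (e ^ 2) (by positivity))
      (sq_mem (e • (1 : A) - (star x * x + s)))) (r := (2 * e)⁻¹) (by positivity)) hs
    unfold Le
    convert this using 1
    rw [star_sub, sw]
    generalize hw : star x * x + s = w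
    rw [eq_sub_of_add_eq' hw]
    simp only [star_smul, star_trivial, star_one, mul_sub, sub_mul,
      smul_mul_assoc, mul_smul_comm, one_mul, mul_one]
    match_scalars <;> field_simp <;> ring
  have st : ∀ x ∈ I, star x ∈ I := fun x hx => key _ 0 (zero_mem _) (star_zero _) (by
    rw [star_star, add_zero]
    exact I.mul_mem_right _ hx)
  let π := Ideal.Quotient.mkₐ ℝ I
  have su : Function.Surjective π := Ideal.Quotient.mk_surjective
  letI : Star (A ⧸ I) := ⟨Quotient.map' star fun a b hab => by
    rw [Submodule.quotientRel_def] at hab ⊢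
    simpa using st _ hab⟩
  have sπ : ∀ x, star (π x) = π (star x) := fun _ => rfl
  letI : StarRing (A ⧸ I) :=
    { star_involutive := su.forall.2 fun x => by rw [sπ, sπ, star_star]
      star_mul := su.forall₂.2 fun x y => by rw [← map_mul, sπ, sπ, sπ, star_mul, map_mul]
      star_add := su.forall₂.2 fun x y => by rw [← map_add, sπ, sπ, sπ, star_add, map_add] }
  haveI : StarModule ℝ (A ⧸ I) := ⟨fun r => su.forall.2 fun x => by
    rw [← map_smul, sπ, sπ, star_smul, map_smul]⟩
  have := one_eq_zero (Q := A ⧸ I) (su.forall₃.2 fun x y w e => by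
      refine Ideal.Quotient.eq_zero_iff_mem.2 (key x (star y * y + star w * w)
        (add_mem (sq_mem y) (sq_mem w)) (by simp) (Ideal.Quotient.eq_zero_iff_mem.1 ?_))
      change π _ = 0
      simpa only [sπ, ← map_mul, ← map_add, add_assoc] using e)
    (fun i => π (z i)) (fun i => by rw [sπ, hz]) (fun a T hT => by
      have := congrArg π (h a _ rfl)
      simp only [map_add, map_sub, map_smul, map_pow, map_sum, map_one, map_zero, ← hT] at this
      exact this) (by rw [← map_sum, h1, map_one])
  have m : (1 : A) ∈ I := Ideal.Quotient.eq_zero_iff_mem.1 this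
  convert smul_mem (m (1 / 2) (by norm_num)) zero_le_two using 1
  rw [star_one, mul_one]
  module

end Pool.Agent.H.MP_d1b776_ag
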